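import Pool.Agent.Helper27.EX.RDefs

/-!
# MP_2857a5_co : the third extremal case, definitions
-/

set_option autoImplicit false

open Finset
open scoped Classical

namespace OT

noncomputable section

/-! ### Digraphs -/

section Digraph

variable {V : Type} [Fintype V]

/-- The typical sets: `W (i, o)` contains vertices with in-type `i` and out-type `o`; the arcs from
`W k` to `W l` are almost all there when `k.2 = l.1`; about half of the vertices have in-type `b`,
and about half of them have out-type `b`. -/
structure Typ (D : V → V → Prop) (W : Bool × Bool → Finset V) (δ : ℝ) : Prop where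
  disj : ∀ k l, k ≠ l → Disjoint (W k) (W l)
  out : ∀ k l : Bool × Bool, k.2 = l.1 → ∀ w ∈ W k,
    ((W l \ adjN D true w).card : ℝ) ≤ δ * (Fintype.card V : ℝ)
  inn : ∀ k l : Bool × Bool, k.2 = l.1 → ∀ w ∈ W l,
    ((W k \ adjN D false w).card : ℝ) ≤ δ * (Fintype.card V : ℝ)
  inB : ∀ b : Bool, (1 / 2 - δ) * (Fintype.card V : ℝ) ≤
    ((W (b, true)).card : ℝ) + ((W (b, false)).card : ℝ)
  outB : ∀ b : Bool, (1 / 2 - δ) * (Fintype.card V : ℝ) ≤
    ((W (true, b)).card : ℝ) + ((W (false, b)).card : ℝ)

/-- `v` has many in-neighbours (`b = false`) or out-neighbours (`b = true`) in `W k`. -/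
def Opt (D : V → V → Prop) (W : Bool × Bool → Finset V) (ρ : ℝ) (b : Bool) (k : Bool × Bool)
    (v : V) : Prop := ρ * (Fintype.card V : ℝ) ≤ ((W k ∩ adjN D b v).card : ℝ)

/-- A vertex which is in no typical set. -/
def Exc (W : Bool × Bool → Finset V) (v : V) : Prop := ∀ k, v ∉ W k

end Digraph

/-! ### Trees -/

section Tree

variable {n : ℕ}

/-- The component of `w` after removing the edges above the vertices of `Γ`, if `w` is the root or
a vertex of `Γ`. -/
def PTree.PTop (T : PTree n) (Γ : Finset (Fin n)) (w : Fin n) : Finset (Fin n) :=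
  (T.sub w).filter fun v => ∀ u, u ∈ T.sub w → v ∈ T.sub u → u ∈ Γ → u = w

/-- `i` is reached from `l` by the parent function `p` through elements outside `F`, `l` included
and `i` excluded. -/
inductive Reach (p : Fin n → Option (Fin n)) (F : Finset (Fin n)) (i : Fin n) : Fin n → Prop
  | base (l : Fin n) : p l = some i → l ∉ F → Reach p F i l
  | step (l j : Fin n) : p l = some j → l ∉ F → Reach p F i j → Reach p F i l

/-- The component of the edge half of `i` (the half used by the edge from `par i` to `i`) in the
split forest, after cutting at the in-halves of the vertices of `Z` (all of sign `true`): it is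
`(j, true)` if its top is the other half of `j`, and `(l, false)` if its top is the edge half of
`l`. -/
def PTree.ce (T : PTree n) (Z : Finset (Fin n)) (i : Fin n) : Fin n × Bool :=
  if h : (i : ℕ) = 0 ∨ (T.par i ∈ Z ∧ T.sg i = false) then (i, false)
  else if T.sg i = T.sg (T.par i) then (T.par i, true) else T.ce Z (T.par i)
termination_by (i : ℕ)
decreasing_by exact T.lt i (fun h0 => h (Or.inl h0))

/-- The bit of the edge half of `i`, when the components `(j, true)` have the bits `b` and the
components `(l, false)` have the bits `a`. -/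
def PTree.eb (T : PTree n) (Z : Finset (Fin n)) (a b : Fin n → Bool) (i : Fin n) : Bool :=
  if (T.ce Z i).2 then b (T.ce Z i).1 else a (T.ce Z i).1

/-- The labels: (bit of the in-half, bit of the out-half). -/
def PTree.lb (T : PTree n) (Z : Finset (Fin n)) (a b : Fin n → Bool) (i : Fin n) : Bool × Bool :=
  if T.sg i then (T.eb Z a b i, b i) else (b i, T.eb Z a b i)

/-- The number of in-halves of the component `(j, true)`. -/
def PTree.inh (T : PTree n) (Z : Finset (Fin n)) (j : Fin n) : ℕ :=
  (if T.sg j then 0 else 1) + (univ.filter fun i => T.ce Z i = (j, true) ∧ T.sg i = true).card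

/-- The sinks all of whose in-neighbours have label `l`, and which have themselves the label
`l.swap`. -/
def PTree.ctx (T : PTree n) (Z : Finset (Fin n)) (lab : Fin n → Bool × Bool) (l : Bool × Bool) :
    Finset (Fin n) :=
  univ.filter fun t => T.Snk t ∧ t ∉ Z ∧ lab t = l.swap ∧ ∀ y, T.Arc y t → y ∉ Z ∧ lab y = l

/-- A directed path of `T` whose interior vertices `x 1, …, x ℓ` have no other neighbours. -/
structure Win (T : PTree n) (ℓ : ℕ) (x : ℕ → Fin n) : Prop where
  inn : ∀ i, 1 ≤ i → i ≤ ℓ → ∀ y, T.Arc y (x i) ↔ y = x (i - 1)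
  out : ∀ i, 1 ≤ i → i ≤ ℓ → ∀ y, T.Arc (x i) y ↔ y = x (i + 1)

end Tree

end

end OT
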