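import Pool.Agent.Helper20.EX3.Statements
import Pool.Agent.Helper27.OT.Main
import Pool.Agent.Helper7.OT.OP

/-!
# MP_2857a5_co : reversal and final assembly
-/

set_option autoImplicit false

open Finset
open scoped Classical

namespace OT

noncomputable section

section Rev

variable {V : Type} [Fintype V] {n : ℕ}

theorem x3_adj_rev (D : V → V → Prop) (b : Bool) (u v : V) : Adj (rev D) b u v ↔ Adj D (!b) u v := by
  cases b <;> simp [Adj, rev]

theorem x3_adjN_rev (D : V → V → Prop) (b : Bool) (u : V) : adjN (rev D) b u = adjN D (!b) u := by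
  ext v
  simp [adjN, x3_adj_rev]

theorem x3_semi_rev {D : V → V → Prop} {L : ℝ} (h : SemiDeg D L) : SemiDeg (rev D) L := by
  refine ⟨fun v hv => h.irr v hv, fun s u => ?_⟩
  rw [x3_adjN_rev]
  exact h.deg _ _

theorem x3_emb_rev {T : PTree n} {D : V → V → Prop} (h : T.rev.Emb (rev D)) : T.Emb D := by
  obtain ⟨φ, hφ, h2⟩ := h
  refine ⟨φ, hφ, fun i hi => ?_⟩
  have := h2 i hi
  rw [x3_adj_rev] at this
  simpa [PTree.rev] using this

theorem x3_deg_rev {T : PTree n} {Δ : ℕ} (h : T.Deg Δ) : T.rev.Deg Δ := h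

theorem x3_arc_rev (T : PTree n) (x y : Fin n) : T.rev.Arc x y ↔ T.Arc y x := by
  simp only [PTree.Arc, PTree.rev]
  constructor
  · rintro (⟨h1, h2, h3⟩ | ⟨h1, h2, h3⟩)
    · right
      exact ⟨h1, h2, by simpa using h3⟩
    · left
      exact ⟨h1, h2, by simpa using h3⟩
  · rintro (⟨h1, h2, h3⟩ | ⟨h1, h2, h3⟩)
    · right
      exact ⟨h1, h2, by simpa using h3⟩
    · left
      exact ⟨h1, h2, by simpa using h3⟩

theorem x3_snk_rev (T : PTree n) (v : Fin n) : T.rev.Snk v ↔ T.Src v := by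
  simp only [PTree.Snk, PTree.Src, x3_arc_rev]

theorem x3_src_rev (T : PTree n) (v : Fin n) : T.rev.Src v ↔ T.Snk v := by
  simp only [PTree.Snk, PTree.Src, x3_arc_rev]

theorem x3_typ_rev {D : V → V → Prop} {W : Bool × Bool → Finset V} {δ : ℝ} (h : Typ D W δ) :
    Typ (rev D) (fun k => W k.swap) δ := by
  refine ⟨?_, ?_, ?_, ?_, ?_⟩
  · intro k l hkl
    exact h.disj _ _ (fun h' => hkl (Prod.swap_injective h'))
  · intro k l hkl w hw
    rw [x3_adjN_rev]
    exact h.inn l.swap k.swap (by simpa using hkl.symm) w hw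
  · intro k l hkl w hw
    rw [x3_adjN_rev]
    exact h.out l.swap k.swap (by simpa using hkl.symm) w hw
  · intro b
    simpa using h.outB b
  · intro b
    simpa using h.inB b

theorem x3_semi_mono {D : V → V → Prop} {L L' : ℝ} (h : SemiDeg D L) (hL : L' ≤ L) :
    SemiDeg D L' := ⟨h.irr, fun s u => by have := h.deg s u; linarith⟩

theorem x3_typ_mono {D : V → V → Prop} {W : Bool × Bool → Finset V} {δ δ' : ℝ}
    (h : Typ D W δ) (hd : δ ≤ δ') : Typ D W δ' := by
  have hn : (0 : ℝ) ≤ (Fintype.card V : ℝ) := by positivity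
  have h1 : δ * (Fintype.card V : ℝ) ≤ δ' * (Fintype.card V : ℝ) :=
    mul_le_mul_of_nonneg_right hd hn
  refine ⟨h.disj, fun k l hkl w hw => (h.out k l hkl w hw).trans h1,
    fun k l hkl w hw => (h.inn k l hkl w hw).trans h1, fun b => ?_, fun b => ?_⟩
  · have := h.inB b
    nlinarith
  · have := h.outB b
    nlinarith

end Rev

theorem x3_riii (h1 : StKIII) (h2 : StDIII) : StRIII := by
  intro Δ γ hγ
  obtain ⟨ε, δ₂, c₂, N₂, hε, hδ₂, H2⟩ := h2 Δ γ hγ
  obtain ⟨δ₁, c₁, N₁, hδ₁, H1⟩ := h1 Δ γ ε hγ hε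
  refine ⟨min δ₁ δ₂, max c₁ c₂, max (max N₁ N₂) 1, lt_min hδ₁ hδ₂, ?_⟩
  intro n hn V _ hV D W hW hcard hS T hT
  have hn1 : N₁ ≤ n := le_trans (le_max_left _ _) (le_trans (le_max_left _ _) hn)
  have hn2 : N₂ ≤ n := le_trans (le_max_right _ _) (le_trans (le_max_left _ _) hn)
  have hn3 : 1 ≤ n := le_trans (le_max_right _ _) hn
  have hlog : 0 ≤ Real.log n := Real.log_nonneg (by exact_mod_cast hn3)
  have hS1 : SemiDeg D (c₁ * Real.log n) :=
    x3_semi_mono hS (mul_le_mul_of_nonneg_right (le_max_left _ _) hlog)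
  have hS2 : SemiDeg D (c₂ * Real.log n) :=
    x3_semi_mono hS (mul_le_mul_of_nonneg_right (le_max_right _ _) hlog)
  have hW1 := x3_typ_mono hW (min_le_left δ₁ δ₂)
  have hW2 := x3_typ_mono hW (min_le_right δ₁ δ₂)
  by_cases ha : ε * (n : ℝ) ≤ ((univ.filter fun v => T.Snk v).card : ℝ)
  · exact H1 n hn1 V hV D W hW1 hcard hS1 T hT ha
  by_cases hb : ε * (n : ℝ) ≤ ((univ.filter fun v => T.Src v).card : ℝ)
  · apply x3_emb_rev
    apply H1 n hn1 V hV (rev D) (fun k => W k.swap) (x3_typ_rev hW1) (fun k => hcard _)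
      (x3_semi_rev hS1) T.rev (x3_deg_rev hT)
    simpa only [x3_snk_rev] using hb
  · push Not at ha hb
    exact H2 n hn2 V hV D W hW2 hcard hS2 T hT ha.le hb.le

theorem x3_regimes (hI : StRI) (hII : StRII) (hIII : StRIII) (hIS : StIS) : ∀ Δ : ℕ,
    ∃ (ε c : ℝ) (N : ℕ), 0 < ε ∧ ε ≤ 1 ∧ ∀ n : ℕ, N ≤ n → ∀ (V : Type) [Fintype V],
      Fintype.card V = n → ∀ D : V → V → Prop, SemiDeg D (c * Real.log n) → Ext D ε →
      ∀ T : PTree n, T.Deg Δ → T.Emb D := by
  intro Δ
  obtain ⟨κ₁, c₁, N₁, hκ₁, H1⟩ := hI Δ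
  obtain ⟨κ₂, c₂, N₂, hκ₂, H2⟩ := hII Δ
  obtain ⟨γ, hγ, hγ1, hγ2⟩ : ∃ γ : ℝ, 0 < γ ∧ 4 * γ ≤ κ₁ ∧ 4 * γ ≤ κ₂ := by
    refine ⟨min κ₁ κ₂ / 4, by positivity, ?_, ?_⟩
    · have := min_le_left κ₁ κ₂
      linarith
    · have := min_le_right κ₁ κ₂
      linarith
  obtain ⟨δ₃, c₃, N₃, hδ₃, H3⟩ := hIII Δ (γ / 2) (by positivity)
  obtain ⟨δ, hδ, hd1, hd3⟩ : ∃ δ : ℝ, 0 < δ ∧ 8 * δ ≤ γ ∧ δ ≤ δ₃ := by
    refine ⟨min (γ / 8) δ₃, by positivity, ?_, min_le_right _ _⟩
    have := min_le_left (γ / 8) δ₃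
    linarith
  obtain ⟨ε, hε, hε1, HS⟩ := hIS δ hδ
  refine ⟨ε, max (max c₁ c₂) (max c₃ 0), max (max N₁ N₂) (max N₃ 1), hε, hε1, ?_⟩
  intro n hn V _ hV D hS hE T hT
  have hn1 : N₁ ≤ n := le_trans (le_max_left _ _) (le_trans (le_max_left _ _) hn)
  have hn2 : N₂ ≤ n := le_trans (le_max_right _ _) (le_trans (le_max_left _ _) hn)
  have hn3 : N₃ ≤ n := le_trans (le_max_left _ _) (le_trans (le_max_right _ _) hn)
  have hn4 : 1 ≤ n := le_trans (le_max_right _ _) (le_trans (le_max_right _ _) hn)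
  have hlog : 0 ≤ Real.log n := Real.log_nonneg (by exact_mod_cast hn4)
  have hnR : (0 : ℝ) ≤ (n : ℝ) := by positivity
  have hc1 : c₁ ≤ max (max c₁ c₂) (max c₃ 0) := le_trans (le_max_left _ _) (le_max_left _ _)
  have hc2 : c₂ ≤ max (max c₁ c₂) (max c₃ 0) := le_trans (le_max_right _ _) (le_max_left _ _)
  have hc3 : c₃ ≤ max (max c₁ c₂) (max c₃ 0) := le_trans (le_max_left _ _) (le_max_right _ _)
  have hc0 : 0 ≤ max (max c₁ c₂) (max c₃ 0) := le_trans (le_max_right _ _) (le_max_right _ _)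
  have hS1 : SemiDeg D (c₁ * Real.log n) := x3_semi_mono hS (mul_le_mul_of_nonneg_right hc1 hlog)
  have hS2 : SemiDeg D (c₂ * Real.log n) := x3_semi_mono hS (mul_le_mul_of_nonneg_right hc2 hlog)
  have hS3 : SemiDeg D (c₃ * Real.log n) := x3_semi_mono hS (mul_le_mul_of_nonneg_right hc3 hlog)
  have hS0 : SemiDeg D 0 := x3_semi_mono hS (mul_nonneg hc0 hlog)
  obtain ⟨W, hW⟩ := HS V D (by omega) hS0 hE
  have hout := hW.out
  have hinn := hW.inn
  have hinT := hW.inB true
  have hinF := hW.inB false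
  have houtT := hW.outB true
  have houtF := hW.outB false
  rw [hV] at hout hinn hinT hinF houtT houtF
  -- total number of vertices
  have htot : ((W (true, true)).card : ℝ) + ((W (true, false)).card : ℝ) +
      ((W (false, true)).card : ℝ) + ((W (false, false)).card : ℝ) ≤ (n : ℝ) := by
    have h1 : (univ : Finset (Bool × Bool)).sum (fun k => (W k).card) ≤ n := by
      rw [← hV, ← card_univ (α := V), ← card_biUnion (fun k _ l _ hkl => hW.disj k l hkl)]
      exact card_le_card (subset_univ _)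
    have h2 : (univ : Finset (Bool × Bool)).sum (fun k => (W k).card) =
        (W (true, true)).card + (W (true, false)).card + (W (false, true)).card +
          (W (false, false)).card := by
      rw [Fintype.sum_prod_type]
      simp [Fintype.sum_bool]
      ring
    rw [h2] at h1
    exact_mod_cast h1
  have hδn : δ * (n : ℝ) ≤ γ * n / 8 := by nlinarith
  have hgn : 0 ≤ γ * (n : ℝ) := by positivity
  by_cases hA : ((W (false, true)).card : ℝ) ≤ γ * n
  · -- Regime I
    refine H1 n hn1 V hV D (W (true, true)) (W (false, false))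
      (hW.disj _ _ (by simp)) ?_ ?_ ?_ ?_ hS1 T hT
    · nlinarith
    · nlinarith
    · intro s b hb
      have : δ * (n : ℝ) ≤ κ₁ * n := by nlinarith
      cases s
      · exact (hinn (true, true) (true, true) rfl b hb).trans this
      · exact (hout (true, true) (true, true) rfl b hb).trans this
    · intro s b hb
      have : δ * (n : ℝ) ≤ κ₁ * n := by nlinarith
      cases s
      · exact (hinn (false, false) (false, false) rfl b hb).trans this
      · exact (hout (false, false) (false, false) rfl b hb).trans this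
  push Not at hA
  by_cases hB : ((W (true, true)).card : ℝ) ≤ γ * n
  · -- Regime II
    refine H2 n hn2 V hV D (W (true, false)) (W (false, true)) ?_ hS2 T hT
    have hκ : δ * (n : ℝ) ≤ κ₂ * n := by nlinarith
    refine ⟨hW.disj _ _ (by simp), ?_, ?_, ?_, ?_⟩
    · rw [hV]; nlinarith
    · rw [hV]; nlinarith
    · intro s b hb
      rw [hV]
      cases s
      · exact (hinn (false, true) (true, false) rfl b hb).trans hκ
      · exact (hout (true, false) (false, true) rfl b hb).trans hκ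
    · intro s b hb
      rw [hV]
      cases s
      · exact (hinn (true, false) (false, true) rfl b hb).trans hκ
      · exact (hout (false, true) (true, false) rfl b hb).trans hκ
  push Not at hB
  -- Regime III
  refine H3 n hn3 V hV D W (x3_typ_mono hW hd3) ?_ hS3 T hT
  intro k
  obtain ⟨k1, k2⟩ := k
  cases k1 <;> cases k2 <;> nlinarith

theorem x3_main (hI : StRI) (hII : StRII) (hIII : StRIII) (hIS : StIS) : ∀ Δ : ℕ,
    ∃ (c : ℝ) (N : ℕ), ∀ n : ℕ, N ≤ n → ∀ (V : Type) [Fintype V],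
      Fintype.card V = n → ∀ D : V → V → Prop, SemiDeg D (c * Real.log n) →
      ∀ T : PTree n, T.Deg Δ → T.Emb D := by
  intro Δ
  obtain ⟨ε, c, N, hε, hε1, H⟩ := x3_regimes hI hII hIII hIS Δ
  obtain ⟨N', H'⟩ := OT.main Δ ε hε hε1
  refine ⟨max c 0, max (max N N') 1, ?_⟩
  intro n hn V _ hV D hS T hT
  have hn1 : N ≤ n := le_trans (le_max_left _ _) (le_trans (le_max_left _ _) hn)
  have hn2 : N' ≤ n := le_trans (le_max_right _ _) (le_trans (le_max_left _ _) hn)
  have hn3 : 1 ≤ n := le_trans (le_max_right _ _) hn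
  have hlog : 0 ≤ Real.log n := Real.log_nonneg (by exact_mod_cast hn3)
  by_cases hE : Ext D ε
  · exact H n hn1 V hV D (x3_semi_mono hS (mul_le_mul_of_nonneg_right (le_max_left _ _) hlog))
      hE T hT
  · subst hV
    refine H' V hn2 D ⟨hε, hε1, hS.irr, ?_, hE⟩ T hT
    intro b u
    have h1 := hS.deg b u
    have h2 : 0 ≤ max c 0 * Real.log (Fintype.card V) := mul_nonneg (le_max_right _ _) hlog
    have h3 : (0 : ℝ) ≤ (Fintype.card V : ℝ) := by positivity
    nlinarith

theorem x3_frozen (hI : StRI) (hII : StRII) (hIII : StRIII) (hIS : StIS) :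
    ∀ Δ : ℕ, ∃ c : ℝ, ∃ N : ℕ, ∀ n : ℕ, N ≤ n →
      ∀ G : Fin n → Fin n → Prop,
        (∀ v : Fin n,
          (n : ℝ) / 2 + c * Real.log n ≤ (({w | G v w ∧ w ≠ v} : Set (Fin n)).ncard : ℝ) ∧
          (n : ℝ) / 2 + c * Real.log n ≤ (({w | G w v ∧ w ≠ v} : Set (Fin n)).ncard : ℝ)) →
        ∀ T : Fin n → Fin n → Prop,
          (∀ u v : Fin n, T u v → ¬ T v u) →
          (SimpleGraph.fromRel T).IsTree →
          (∀ v : Fin n, ((SimpleGraph.fromRel T).neighborSet v).ncard ≤ Δ) →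
          ∃ φ : Fin n → Fin n, Function.Injective φ ∧
            ∀ u v : Fin n, T u v → G (φ u) (φ v) := by
  intro Δ
  obtain ⟨c, N, H⟩ := x3_main hI hII hIII hIS Δ
  refine ⟨c, N, ?_⟩
  intro n hn G hG T hT1 hT2 hT3
  set D : Fin n → Fin n → Prop := fun u v => G u v ∧ u ≠ v with hD
  have hS : SemiDeg D (c * Real.log n) := by
    refine ⟨?_, ?_⟩
    · intro v hv
      exact hv.2 rfl
    · intro b u
      rw [Fintype.card_fin]
      have h1 := hG u
      have h2 : ((OT.adjN D b u : Finset (Fin n)) : Set (Fin n)) =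
          if b then {w | G u w ∧ w ≠ u} else {w | G w u ∧ w ≠ u} := by
        ext w
        cases b <;> simp [OT.adjN, OT.Adj, hD, ne_comm]
      have h3 : (OT.adjN D b u).card =
          (if b then {w | G u w ∧ w ≠ u} else {w | G w u ∧ w ≠ u} : Set (Fin n)).ncard := by
        rw [← h2, Set.ncard_coe_finset]
      rw [h3]
      cases b
      · simpa using h1.2
      · simpa using h1.1
  obtain ⟨φ, hφ1, hφ2⟩ := OT.of_ptree D Δ
    (fun T' hT' => H n hn (Fin n) (Fintype.card_fin n) D hS T' hT') T hT1 hT2 hT3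
  exact ⟨φ, hφ1, fun u v huv => (hφ2 u v huv).1⟩

end

end OT
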