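import Pool.Agent.Helper20.EX3.Final
import Pool.Agent.Helper97.EX3.MET
import Pool.Agent.Helper97.EX3.KIII
import Pool.Agent.Helper73.EX3.META
import Pool.Agent.Helper75.EX3.T3
import Pool.Agent.Helper75.EX3.LB
import Pool.Agent.Helper42.EX3.WIN
import Pool.Agent.Helper42.EX3.IS
import Pool.Agent.Helper1.EX3.WK
import Pool.Agent.Helper1.EX3.INST
import Pool.Agent.Helper49.EX3.PACK
import Pool.Agent.Helper68.EX3.SCL
import Pool.Agent.Helper68.EX3.CUT
import Pool.Agent.Helper18.EX3.DEV
import Pool.Agent.Helper11.EX3.ASMK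
import Pool.Agent.Helper52.EX3.DIII
import Pool.Agent.Helper37.EX3.T3A

/-!
# MP_2857a5_co : Regime III from its modules
-/

set_option autoImplicit false

namespace OT

theorem x3_stMet : StMet := x3_met x3_metA

theorem x3_regIII : StRIII :=
  x3_riii (x3_kiii (x3_t3 (x3_t3a (x3_cut x3_scl) x3_bd x3_avg) x3_lb) x3_inst
    (x3_asmk x3_stMet)) (x3_diii x3_dev x3_win x3_wk x3_pack x3_stMet)

end OT
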