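import Pool.Agent.Helper20.EX3.Defs

/-!
# MP_2857a5_co : embedding theorem, third extremal case, final assembly: statements
-/

set_option autoImplicit false

open Finset
open scoped Classical

namespace OT

noncomputable section

/-! ## The embedding theorem -/

/-- Module META: greedy embedding and Hall's theorem. -/
def StMetA : Prop := ∀ (Δ : ℕ) (ζ : ℝ), 0 < ζ → ∀ (I : Type) [Fintype I],
  ∃ (η θ : ℝ) (N : ℕ), 0 < η ∧ 0 < θ ∧ ∀ n : ℕ, N ≤ n → ∀ T : PTree n, T.Deg Δ →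
  ∀ (V : Type) [Fintype V], Fintype.card V = n → ∀ (D : V → V → Prop) (W : I → Finset V),
  (∀ k l, k ≠ l → Disjoint (W k) (W l)) → (∀ k, ζ * (n : ℝ) ≤ ((W k).card : ℝ)) →
  ∀ Rel : I → I → Prop,
  (∀ k l, Rel k l → ∀ w ∈ W k, ((W l \ adjN D true w).card : ℝ) ≤ η * (n : ℝ)) →
  (∀ k l, Rel k l → ∀ w ∈ W l, ((W k \ adjN D false w).card : ℝ) ≤ η * (n : ℝ)) →
  ∀ (Sp P : Finset (Fin n)) (f : Fin n → V) (κ : Fin n → I),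
  Sp ⊆ P → (P.card : ℝ) ≤ θ * (n : ℝ) → Set.InjOn f P →
  (∀ x ∈ P, ∀ y ∈ P, T.Arc x y → D (f x) (f y)) →
  (∀ x ∈ P, x ∉ Sp → f x ∈ W (κ x)) → (∀ x ∈ Sp, ∀ y, T.Nb x y → y ∈ P) →
  (∀ x y, T.Arc x y → x ∉ Sp → y ∉ Sp → Rel (κ x) (κ y)) →
  (∀ v, (∀ k, v ∉ W k) → v ∈ P.image f) →
  (∀ k, (univ.filter fun y => y ∉ P ∧ κ y = k).card = (W k \ P.image f).card) → T.Emb D

/-- Module MET: the embedding theorem. -/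
def StMet : Prop := ∀ (Δ : ℕ) (ζ ρ : ℝ), 0 < ζ → 0 < ρ → ∀ (I : Type) [Fintype I],
  ∃ (η θ : ℝ) (N : ℕ), 0 < η ∧ 0 < θ ∧ MetHolds Δ ζ ρ I η θ N

/-! ## Tree part of the third regime -/

/-- Module SCL: separated cuts into small pieces. -/
def StSCL : Prop := ∀ (Δ d : ℕ) (δ : ℝ) (κ₀ : ℕ), 0 < δ → ∃ M N : ℕ, ∀ (n : ℕ) (T : PTree n),
  N ≤ n → T.Deg Δ → ∀ M₀ : Finset (Fin n), M₀.card ≤ κ₀ →
  ∃ Γ : Finset (Fin n), Γ.card ≤ M ∧ (∀ w ∈ Γ, ∀ m, (m ∈ M₀ ∨ (m : ℕ) = 0) → w ∉ T.ball d m) ∧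
    (∀ w ∈ Γ, ∀ w' ∈ Γ, w ≠ w' → w' ∉ T.ball d w) ∧
    ∀ w, (w ∈ Γ ∨ (w : ℕ) = 0) → ((T.PTop Γ w).card : ℝ) ≤ δ * (n : ℝ)

/-- Module BD: blocks in a recursive tree. -/
def StBD : Prop := ∀ (n R : ℕ) (p : Fin n → Option (Fin n)), 1 ≤ R →
  (∀ i j, p i = some j → j < i) → ∃ F : Finset (Fin n), F.card * R ≤ n ∧
    ∀ i, i ∉ F → (univ.filter fun l => Reach p F i l).card < R

/-- Module AVG: derandomised second moment. -/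
def StAvg : Prop := ∀ (I : Type) [Fintype I] (m : I → ℝ) (w : Bool × Bool → ℝ) (r : ℕ)
  (f : Fin r → I → Bool × Bool → ℝ) (δ n : ℝ), 0 ≤ δ → (∀ i, 0 ≤ m i) → (∀ i, m i ≤ δ * n) →
  ∑ i, m i ≤ n → (∀ s, 0 ≤ w s) → ∑ s, w s = 1 → (∀ k i s, |f k i s| ≤ m i) →
  ∃ π : I → Bool × Bool, ∀ k, (∑ i, f k i (π i) - ∑ i, ∑ s, w s * f k i s) ^ 2 ≤
    4 * (r : ℝ) * δ * n ^ 2

/-- Module LB: the labelling is robust. -/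
def StLB : Prop := ∀ (n : ℕ) (T : PTree n) (Z : Finset (Fin n)) (a b : Fin n → Bool),
  (∀ z ∈ Z, (z : ℕ) ≠ 0 ∧ T.sg z = true) →
  ∀ y z, T.Arc y z → y ∉ Z → z ∉ Z → (T.lb Z a b y).2 = (T.lb Z a b z).1

/-- Module CUT: cutting the giant components of the split forest. -/
def StCut : Prop := ∀ (Δ d : ℕ) (δ η : ℝ), 0 < δ → 0 < η → ∃ C : ℝ, ∃ N : ℕ, ∀ (n : ℕ)
  (T : PTree n), N ≤ n → T.Deg Δ → ∃ Z G : Finset (Fin n),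
    (Z.card : ℝ) ≤ C ∧ (G.card : ℝ) ≤ C ∧
    (∀ z ∈ Z, (z : ℕ) ≠ 0 ∧ T.sg z = true ∧ (T.par z : ℕ) ≠ 0 ∧ T.sg (T.par z) = false) ∧
    (∀ y ∈ Z, ∀ z ∈ Z, y ≠ z → z ∉ T.ball d y) ∧
    (∀ z ∈ Z, ∀ g, (g ∈ G ∨ (g : ℕ) = 0) → g ∉ T.ball d z) ∧
    (∀ z ∈ Z, ∀ j, T.ce Z (T.par z) = (j, true) → j ∈ G) ∧
    (∀ q, ((univ.filter fun i => i ∉ Z ∧ T.ce Z i = q).card : ℝ) ≤ δ * (n : ℝ)) ∧
    ((univ.filter fun l => ∃ z ∈ Z, ∃ i ∈ T.ball 1 z, T.ce Z l = (i, true)).card : ℝ) ≤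
      η * (n : ℝ)

/-- Module T3A: a labelling of the tree with the right numbers of labels, approximately. -/
def StT3A : Prop := ∀ (Δ d : ℕ) (γ ε : ℝ), 0 < γ → 0 < ε → ∃ σ : ℝ, 0 < σ ∧ ∀ η : ℝ, 0 < η →
  ∃ C : ℝ, ∃ N : ℕ, ∀ (n : ℕ) (T : PTree n), N ≤ n → T.Deg Δ →
    ε * (n : ℝ) ≤ ((univ.filter fun v => T.Snk v).card : ℝ) → ∀ x : ℝ, γ ≤ x → x ≤ 1 / 2 - γ →
    ∀ k k' k'' : Bool × Bool, k.2 ≠ k'.2 →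
  ∃ (Z : Finset (Fin n)) (a b : Fin n → Bool), (Z.card : ℝ) ≤ C ∧
    (∀ z ∈ Z, (z : ℕ) ≠ 0 ∧ T.sg z = true) ∧
    (∀ y ∈ Z, ∀ z ∈ Z, y ≠ z → z ∉ T.ball d y) ∧
    (∀ z ∈ Z, (∀ y, T.Arc y z → T.lb Z a b y = k ∨ T.lb Z a b y = k') ∧
      ∀ y, T.Arc z y → T.lb Z a b y = k'') ∧
    (∀ l : Bool × Bool, |(((univ.filter fun v => v ∉ Z ∧ T.lb Z a b v = l).card : ℕ) : ℝ) -
      (if l.1 = l.2 then 1 / 2 - x else x) * (n : ℝ)| ≤ η * (n : ℝ)) ∧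
    (∀ l : Bool × Bool, σ * (n : ℝ) ≤ ((T.ctx Z (T.lb Z a b) l).card : ℝ)) ∧
    ∃ (J : Finset (Fin n)) (j₀ : ℕ), 1 ≤ j₀ ∧ (j₀ : ℝ) ≤ 1 / σ ∧
      (∀ j ∈ J, T.inh Z j = j₀ ∧
        ((univ.filter fun i => T.ce Z i = (j, true)).card : ℝ) ≤ 1 / σ ∧
        (∀ z ∈ Z, j ∉ T.ball 1 z ∧ ∀ i, T.ce Z i = (j, true) → i ∉ T.ball 1 z)) ∧
      ∀ β : Bool, σ * (n : ℝ) ≤ ((J.filter fun j => b j = β).card : ℝ)

/-- Module T3: the same with an almost exact number of labels with first bit `true`. -/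
def StT3 : Prop := ∀ (Δ d : ℕ) (γ ε : ℝ), 0 < γ → 0 < ε → ∃ σ : ℝ, 0 < σ ∧ ∀ η : ℝ, 0 < η →
  ∃ η₁ : ℝ, 0 < η₁ ∧ ∃ C : ℝ, ∃ N : ℕ, ∀ (n : ℕ) (T : PTree n), N ≤ n → T.Deg Δ →
    ε * (n : ℝ) ≤ ((univ.filter fun v => T.Snk v).card : ℝ) → ∀ x : ℝ, γ ≤ x → x ≤ 1 / 2 - γ →
    ∀ k k' k'' : Bool × Bool, k.2 ≠ k'.2 → ∀ N₁ : ℝ, |N₁ - (n : ℝ) / 2| ≤ η₁ * (n : ℝ) →
  ∃ (Z : Finset (Fin n)) (lab : Fin n → Bool × Bool), (Z.card : ℝ) ≤ C ∧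
    (∀ y ∈ Z, ∀ z ∈ Z, y ≠ z → z ∉ T.ball d y) ∧
    (∀ y z, T.Arc y z → y ∉ Z → z ∉ Z → (lab y).2 = (lab z).1) ∧
    (∀ z ∈ Z, (∀ y, T.Arc y z → lab y = k ∨ lab y = k') ∧ ∀ y, T.Arc z y → lab y = k'') ∧
    |(((univ.filter fun v => v ∉ Z ∧ (lab v).1 = true).card : ℕ) : ℝ) - N₁| ≤ C ∧
    (∀ l : Bool × Bool, |(((univ.filter fun v => v ∉ Z ∧ lab v = l).card : ℕ) : ℝ) -
      (if l.1 = l.2 then 1 / 2 - x else x) * (n : ℝ)| ≤ η * (n : ℝ)) ∧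
    ∀ l : Bool × Bool, σ * (n : ℝ) ≤ ((T.ctx Z lab l).card : ℝ)

/-- Module WIN: long directed paths without branching. -/
def StWin : Prop := ∀ (ℓ n : ℕ) (T : PTree n), 1 ≤ ℓ → ∃ (m : ℕ) (x : Fin m → ℕ → Fin n),
  (∀ j, Win T ℓ (x j)) ∧
  (∀ j j' i i', 1 ≤ i → i ≤ ℓ → 1 ≤ i' → i' ≤ ℓ → x j i = x j' i' → j = j' ∧ i = i') ∧
  n ≤ m * ℓ + 2 * ℓ * ((univ.filter fun v => T.Snk v).card +
    (univ.filter fun v => T.Src v).card) + ℓ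

/-- Module WK: labels from windows. -/
def StWK : Prop := ∀ (n ℓ m p : ℕ) (T : PTree n) (x : Fin m → ℕ → Fin n)
  (fill : Fin m → ℕ → Bool × Bool) (J : Finset (Fin m)), 5 ≤ p → p + 5 ≤ ℓ →
  (∀ j, Win T ℓ (x j)) →
  (∀ j j' i i', 1 ≤ i → i ≤ ℓ → 1 ≤ i' → i' ≤ ℓ → x j i = x j' i' → j = j' ∧ i = i') →
  (∀ j, (fill j 1).1 = true) → (∀ j, (fill j ℓ).2 = true) →
  (∀ j i, 1 ≤ i → i < ℓ → ¬ (j ∈ J ∧ (i = p ∨ i + 1 = p)) →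
    (fill j i).2 = (fill j (i + 1)).1) →
  ∃ κ : Fin n → Bool × Bool,
    (∀ j i, 1 ≤ i → i ≤ ℓ → κ (x j i) = fill j i) ∧
    (∀ a ∈ J.image fun j => x j p, ∀ b ∈ J.image fun j => x j p, a ≠ b → b ∉ T.ball 3 a) ∧
    (∀ a b, T.Arc a b → a ∉ (J.image fun j => x j p) → b ∉ (J.image fun j => x j p) →
      (κ a).2 = (κ b).1) ∧
    ∀ k : Bool × Bool,
      (univ.filter fun v => v ∉ (J.image fun j => x j p) ∧ κ v = k).card +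
        (if k = (true, true) then m * ℓ else 0) =
      (if k = (true, true) then n else 0) +
        (univ.filter fun q : Fin m × Fin ℓ =>
          ¬ (q.1 ∈ J ∧ (q.2 : ℕ) + 1 = p) ∧ fill q.1 ((q.2 : ℕ) + 1) = k).card

/-- Module PACK: distributing the labels over the windows. -/
def StPack : Prop := ∀ ℓ w a c : ℕ, w ≤ a → 2 * a + c + 4 * w ≤ w * ℓ →
  ∃ β : Fin w → ℕ → Bool, (∀ j, β j 0 = true) ∧ (∀ j, β j ℓ = true) ∧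
    (univ.filter fun q : Fin w × Fin ℓ => β q.1 q.2 = false ∧ β q.1 ((q.2 : ℕ) + 1) = true).card
      = a ∧
    (univ.filter fun q : Fin w × Fin ℓ => β q.1 q.2 = true ∧ β q.1 ((q.2 : ℕ) + 1) = false).card
      = a ∧
    (univ.filter fun q : Fin w × Fin ℓ => β q.1 q.2 = false ∧ β q.1 ((q.2 : ℕ) + 1) = false).card
      = c

/-! ## Digraph part of the third regime -/

/-- Module INST: disjoint in-stars whose centres have many in-neighbours of the other kind. -/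
def StInst : Prop := ∀ (d : ℕ) (ρ : ℝ), 0 < ρ → ρ ≤ 1 / 20 → ∃ c L₀ : ℝ, 0 < c ∧
  ∀ (V : Type) [Fintype V] (D : V → V → Prop) (W : Bool × Bool → Finset V) (δ L : ℝ),
  0 < Fintype.card V → Typ D W δ → δ ≤ 1 / 100 → SemiDeg D L → L₀ ≤ L →
  ∃ k k' k'' : Bool × Bool, k.2 ≠ k'.2 ∧ ∃ (S : Finset V) (lv : V → Fin d → V),
    Stars D false d S (W k) lv ∧ c * L ≤ (S.card : ℝ) ∧
    ∀ u ∈ S, Opt D W ρ false k' u ∧ Opt D W ρ true k'' u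

/-- Module ASMK: the final assembly for trees with many sinks. -/
def StAsmK : Prop := ∀ (Δ : ℕ) (σ ζ ρ : ℝ), 0 < σ → 0 < ζ → 0 < ρ → ∃ δ : ℝ, 0 < δ ∧ ∃ N : ℕ,
  ∀ n : ℕ, N ≤ n → ∀ (V : Type) [Fintype V], Fintype.card V = n →
  ∀ (D : V → V → Prop) (W : Bool × Bool → Finset V), Typ D W δ →
    (∀ k, ζ * (n : ℝ) ≤ ((W k).card : ℝ)) → ∀ T : PTree n, T.Deg Δ →
  ∀ k k' k'' : Bool × Bool, k.2 ≠ k'.2 → ∀ (S : Finset V) (lv : V → Fin (Δ + 1) → V),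
  Stars D false (Δ + 1) S (W k) lv →
  (∀ u ∈ S, Opt D W ρ false k' u ∧ Opt D W ρ true k'' u) →
  ∀ (Z : Finset (Fin n)) (lab : Fin n → Bool × Bool) (ψ : Fin n → V),
  (Z.card : ℝ) ≤ δ * (n : ℝ) → (∀ y ∈ Z, ∀ z ∈ Z, y ≠ z → z ∉ T.ball 3 y) →
  (∀ z ∈ Z, ψ z ∈ S) → Set.InjOn ψ Z →
  (∀ y z, T.Arc y z → y ∉ Z → z ∉ Z → (lab y).2 = (lab z).1) →
  (∀ z ∈ Z, (∀ y, T.Arc y z → lab y = k ∨ lab y = k') ∧ ∀ y, T.Arc z y → lab y = k'') →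
  ∀ C : Finset V, C ⊆ S → (∀ z ∈ Z, ψ z ∉ C) → (C.card : ℝ) ≤ δ * (n : ℝ) →
  ∀ α : V → Bool × Bool, (∀ v, Exc W v → Opt D W ρ false (α v) v) →
  (∀ l, σ * (n : ℝ) ≤ ((T.ctx Z lab l).card : ℝ)) →
  (∀ l : Bool × Bool, |(((univ.filter fun v => v ∉ Z ∧ lab v = l).card : ℕ) : ℝ) -
      ((W l).card : ℝ)| ≤ δ * (n : ℝ)) →
  (∃ j : ℕ, j ≤ C.card ∧ (univ.filter fun v => v ∉ Z ∧ (lab v).1 = true).card =
    j + (univ.filter fun v => (v ∈ W (true, true) ∨ v ∈ W (true, false)) ∧ v ∉ C ∧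
      ∀ z ∈ Z, ψ z ≠ v).card +
    (univ.filter fun v => Exc W v ∧ v ∉ C ∧ (∀ z ∈ Z, ψ z ≠ v) ∧ (α v).2 = true).card) →
  T.Emb D

/-- Module DEV: types of all the vertices, and single arcs which balance the types. The vertices of
`C` are to be embedded between a vertex of class `k₁` and a vertex of class `k₂`; for those in
`Li` the in-neighbour is reserved, for those in `Lo` the out-neighbour. -/
def StDev : Prop := ∀ ρ : ℝ, 0 < ρ → ρ ≤ 1 / 100 → ∃ δ₀ L₀ : ℝ, 0 < δ₀ ∧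
  ∀ (V : Type) [Fintype V] (D : V → V → Prop) (W : Bool × Bool → Finset V) (δ L : ℝ),
  Typ D W δ → δ ≤ δ₀ → SemiDeg D L → L₀ ≤ L → L ≤ δ * (Fintype.card V : ℝ) →
  ∃ W' : Bool × Bool → Finset V, (∀ k, W' k ⊆ W k) ∧ Typ D W' (10 * δ) ∧
  ∃ (C Li Lo : Finset V) (k₁ k₂ : V → Bool × Bool) (lv : V → V),
    (∀ v, Exc W' v → v ∈ C) ∧ (C.card : ℝ) ≤ 50 * δ * (Fintype.card V : ℝ) ∧
    Li ⊆ C ∧ Lo ⊆ C ∧ Disjoint Li Lo ∧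
    (∀ v ∈ C, v ∉ Li → Opt D W' (ρ / 2) false (k₁ v) v) ∧
    (∀ v ∈ C, v ∉ Lo → Opt D W' (ρ / 2) true (k₂ v) v) ∧
    (∀ v ∈ Li, lv v ∈ W' (k₁ v) ∧ D (lv v) v) ∧ (∀ v ∈ Lo, lv v ∈ W' (k₂ v) ∧ D v (lv v)) ∧
    (∀ v ∈ Li ∪ Lo, lv v ∉ C) ∧ Set.InjOn lv (Li ∪ Lo) ∧
    (W' (false, true) \ C).card + (C.filter fun v => (k₁ v).2 = false ∧ (k₂ v).1 = true).card =
      (W' (true, false) \ C).card + (C.filter fun v => (k₁ v).2 = true ∧ (k₂ v).1 = false).card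

/-- Module KIII: trees with many sinks in the third regime. -/
def StKIII : Prop := ∀ (Δ : ℕ) (γ ε : ℝ), 0 < γ → 0 < ε → ∃ (δ c : ℝ) (N : ℕ), 0 < δ ∧
  ∀ n : ℕ, N ≤ n → ∀ (V : Type) [Fintype V], Fintype.card V = n → ∀ (D : V → V → Prop)
    (W : Bool × Bool → Finset V), Typ D W δ → (∀ k, γ * (n : ℝ) ≤ ((W k).card : ℝ)) →
  SemiDeg D (c * Real.log n) → ∀ T : PTree n, T.Deg Δ →
  ε * (n : ℝ) ≤ ((univ.filter fun v => T.Snk v).card : ℝ) → T.Emb D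

/-- Module DIII: trees with few sinks and few sources in the third regime. -/
def StDIII : Prop := ∀ (Δ : ℕ) (γ : ℝ), 0 < γ → ∃ (ε δ c : ℝ) (N : ℕ), 0 < ε ∧ 0 < δ ∧
  ∀ n : ℕ, N ≤ n → ∀ (V : Type) [Fintype V], Fintype.card V = n →
  ∀ (D : V → V → Prop) (W : Bool × Bool → Finset V), Typ D W δ →
    (∀ k, γ * (n : ℝ) ≤ ((W k).card : ℝ)) →
  SemiDeg D (c * Real.log n) → ∀ T : PTree n, T.Deg Δ →
  ((univ.filter fun v => T.Snk v).card : ℝ) ≤ ε * (n : ℝ) →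
  ((univ.filter fun v => T.Src v).card : ℝ) ≤ ε * (n : ℝ) → T.Emb D

/-- Regime III. -/
def StRIII : Prop := ∀ (Δ : ℕ) (γ : ℝ), 0 < γ → ∃ (δ c : ℝ) (N : ℕ), 0 < δ ∧ ∀ n : ℕ,
  N ≤ n → ∀ (V : Type) [Fintype V], Fintype.card V = n → ∀ (D : V → V → Prop)
    (W : Bool × Bool → Finset V), Typ D W δ → (∀ k, γ * (n : ℝ) ≤ ((W k).card : ℝ)) →
  SemiDeg D (c * Real.log n) → ∀ T : PTree n, T.Deg Δ → T.Emb D

/-! ## Final assembly -/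

/-- Module IS: the initial structure. -/
def StIS : Prop := ∀ δ : ℝ, 0 < δ → ∃ ε : ℝ, 0 < ε ∧ ε ≤ 1 ∧ ∀ (V : Type) [Fintype V]
  (D : V → V → Prop), 0 < Fintype.card V → SemiDeg D 0 → Ext D ε →
  ∃ W : Bool × Bool → Finset V, Typ D W δ

/-- Regime I (helper27). -/
def StRI : Prop := ∀ Δ : ℕ, ∃ (κ c : ℝ) (N : ℕ), 0 < κ ∧ ∀ n : ℕ, N ≤ n →
  ∀ (V : Type) [Fintype V], Fintype.card V = n → ∀ (D : V → V → Prop) (B C : Finset V),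
  Disjoint B C → (1 / 2 - κ) * (n : ℝ) ≤ (B.card : ℝ) → (1 / 2 - κ) * (n : ℝ) ≤ (C.card : ℝ) →
  (∀ s, ∀ b ∈ B, ((B \ adjN D s b).card : ℝ) ≤ κ * (n : ℝ)) →
  (∀ s, ∀ b ∈ C, ((C \ adjN D s b).card : ℝ) ≤ κ * (n : ℝ)) →
  SemiDeg D (c * Real.log n) → ∀ T : PTree n, T.Deg Δ → T.Emb D

/-- Regime II (helper27). -/
def StRII : Prop := ∀ Δ : ℕ, ∃ (κ c : ℝ) (N : ℕ), 0 < κ ∧ ∀ n : ℕ, N ≤ n →
  ∀ (V : Type) [Fintype V], Fintype.card V = n → ∀ (D : V → V → Prop) (B C : Finset V),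
  NearBip D B C κ → SemiDeg D (c * Real.log n) → ∀ T : PTree n, T.Deg Δ → T.Emb D

end

end OT
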